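import Pool.Agent.Results.MP_9056e9_nt.DigitsOfPowersOfE
import Pool.Agent.Y854.GM.Few
import Pool.Agent.Y854.GM.Win

/-!
# The digits of `a e^n + P(n)` for all, or almost all, `n` in windows around the terms of a dilated sequence

Let `b ≥ 2`, `0 < δ ≤ 1`, `a ≠ 0` real, `P` a real polynomial of degree at most `D`, and
`η = δ ^ 4 / (13107200 · 2 ^ D)`. Let `v ≥ 1` be a sequence with exponent of convergence at most `τ` (for `v_k = k ^ κ`
this is `1 / κ`, for `v_k = κ ^ k` or `k!` it is `0`) and `θ < 1`. For all `α > 0` outside a set of Hausdorff dimension at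
most `(1 - η + τ) / (1 - θ)`, all `c < δ ^ 2 / (50000 · 2 ^ D)` and all but finitely many `k`, for ALL integers `n` with
`|n - α v_k| ≤ v_k ^ θ` every block of `L ≥ δ n` consecutive base `b` digits of `a e^n + P(n)`, at the places
`u + 1, …, u + L` with `|a| e^n b^u ≥ 1` and `u + L ≤ n / δ`, has linear complexity larger than `c L`. Outside a set of
dimension at most `(1 - η - γ + τ) / (1 - θ)` this fails for at most `v_k ^ γ` of these `n`.
-/

set_option autoImplicit false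

open Finset Filter Topology
open scoped ENNReal

namespace Pool.Agent.Results.MP_9056e9_nt.DigitWindows

open DigitsOfPowersOfE (digit complexity)

/-- the exponent of convergence of the sequence `v` is at most `τ` -/
def ExpLe (v : ℕ → ℝ) (τ : ℝ) : Prop := ∀ t : ℝ, τ < t → Summable (fun n : ℕ => (v n) ^ (-t))

/-- some block of at least `δ n` digits of `a e^n + P(n)`, at places `u + 1, …, u + L` with `|a| e^n b^u ≥ 1` and
`u + L ≤ n / δ`, has linear complexity at most `c L` -/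
def Simple (b : ℕ) (δ a : ℝ) (P : Polynomial ℝ) (c : ℝ) (n : ℕ) : Prop :=
  ∃ (u : ℤ) (L : ℕ), 1 ≤ |a| * Real.exp n * (b : ℝ) ^ u ∧ δ * n ≤ L ∧ (u : ℝ) + L ≤ n / δ ∧
    (complexity b (a * Real.exp n + P.eval (n : ℝ)) u L : ℝ) ≤ c * L

lemma simple_mono {b : ℕ} {δ a : ℝ} {P : Polynomial ℝ} {c c' : ℝ} (hc : c ≤ c') {n : ℕ} (h : Simple b δ a P c n) :
    Simple b δ a P c' n := by
  obtain ⟨u, L, h1, h2, h3, h4⟩ := h
  exact ⟨u, L, h1, h2, h3, h4.trans (mul_le_mul_of_nonneg_right hc (Nat.cast_nonneg L))⟩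

open Classical in
/-- a set with few elements in all `(r X, X]` has few elements up to `X` -/
lemma sum_up (P : Set ℕ) {r s C : ℝ} (hr0 : 0 < r) (hr1 : r < 1) (hs : 0 < s) (X₀ : ℕ)
    (h : ∀ X : ℕ, X₀ ≤ X → 1 ≤ X →
      (((Ioc 0 X).filter (fun n => n ∈ P ∧ r * X < n)).card : ℝ) ≤ C * (X : ℝ) ^ s) :
    ∃ C' : ℝ, 0 ≤ C' ∧ ∀ X : ℕ, 1 ≤ X → (((Ioc 0 X).filter (fun n => n ∈ P)).card : ℝ) ≤ C' * (X : ℝ) ^ s := by
  have hrs : r ^ s < 1 := Real.rpow_lt_one hr0.le hr1 hs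
  have h1 : 0 < 1 - r ^ s := by linarith
  set C' : ℝ := max (X₀ : ℝ) (C / (1 - r ^ s)) with hC'
  have hC0 : 0 ≤ C' := le_max_of_le_left (Nat.cast_nonneg _)
  refine ⟨C', hC0, fun X => ?_⟩
  induction X using Nat.strong_induction_on with
  | _ X ih =>
    intro hX
    have hX1 : (1 : ℝ) ≤ X := by exact_mod_cast hX
    rcases Nat.lt_or_ge X X₀ with h2 | h2
    · calc (((Ioc 0 X).filter (fun n => n ∈ P)).card : ℝ) ≤ ((Ioc 0 X).card : ℝ) := by
            exact_mod_cast card_filter_le _ _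
        _ = X := by simp
        _ ≤ X₀ := by exact_mod_cast h2.le
        _ ≤ C' := le_max_left _ _
        _ ≤ C' * (X : ℝ) ^ s := le_mul_of_one_le_right hC0 (Real.one_le_rpow hX1 hs.le)
    · set Y : ℕ := ⌊r * X⌋₊ with hY
      have hYr : (Y : ℝ) ≤ r * X := Nat.floor_le (by positivity)
      have hYX : Y < X := by
        have : (Y : ℝ) < X := lt_of_le_of_lt hYr (by nlinarith)
        exact_mod_cast this
      have hsplit : (Ioc 0 X).filter (fun n => n ∈ P) ⊆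
          (Ioc 0 Y).filter (fun n => n ∈ P) ∪ (Ioc 0 X).filter (fun n => n ∈ P ∧ r * X < n) := by
        intro n hn
        rw [mem_filter, mem_Ioc] at hn
        rw [mem_union, mem_filter, mem_filter, mem_Ioc, mem_Ioc]
        rcases le_or_gt (n : ℝ) (r * X) with h3 | h3
        · exact Or.inl ⟨⟨hn.1.1, Nat.le_floor h3⟩, hn.2⟩
        · exact Or.inr ⟨hn.1, hn.2, h3⟩
      have h4 : (((Ioc 0 Y).filter (fun n => n ∈ P)).card : ℝ) ≤ C' * (r ^ s * (X : ℝ) ^ s) := by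
        rcases Nat.eq_zero_or_pos Y with h5 | h5
        · rw [h5]
          simp only [Ioc_self, filter_empty, card_empty, Nat.cast_zero]
          positivity
        · refine (ih Y hYX h5).trans (mul_le_mul_of_nonneg_left ?_ hC0)
          rw [← Real.mul_rpow hr0.le (by positivity)]
          exact Real.rpow_le_rpow (Nat.cast_nonneg _) hYr hs.le
      have h5 := h X h2 hX
      have h6 : C ≤ C' * (1 - r ^ s) := by
        rw [← div_le_iff₀ h1]
        exact le_max_right _ _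
      have hXs : 0 ≤ (X : ℝ) ^ s := by positivity
      calc (((Ioc 0 X).filter (fun n => n ∈ P)).card : ℝ)
          ≤ (((Ioc 0 Y).filter (fun n => n ∈ P)).card : ℝ) +
            (((Ioc 0 X).filter (fun n => n ∈ P ∧ r * X < n)).card : ℝ) := by
              exact_mod_cast (card_le_card hsplit).trans (card_union_le _ _)
        _ ≤ C' * (r ^ s * (X : ℝ) ^ s) + C * (X : ℝ) ^ s := add_le_add h4 h5
        _ ≤ C' * (r ^ s * (X : ℝ) ^ s) + C' * (1 - r ^ s) * (X : ℝ) ^ s := by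
            gcongr
        _ = C' * (X : ℝ) ^ s := by ring

/-- the constant `c` for the parameter `δ` -/
noncomputable def cc (D : ℕ) (δ : ℝ) : ℝ := δ ^ 2 / (50000 * 2 ^ D)

/-- the saving for the parameter `δ` -/
noncomputable def eta (D : ℕ) (δ : ℝ) : ℝ := δ ^ 4 / (13107200 * 2 ^ D)

lemma eta_lt {D : ℕ} {δ : ℝ} (hδ : 0 < δ) (hδ1 : δ ≤ 1) : eta D δ ≤ 1 / 2 := by
  unfold eta
  have h1 : δ ^ 4 ≤ 1 := pow_le_one₀ hδ.le hδ1
  have h2 : (1 : ℝ) ≤ 2 ^ D := one_le_pow₀ (by norm_num)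
  rw [div_le_iff₀ (by positivity)]
  nlinarith

open Classical in
/-- the number of the `n` with a simple block -/
lemma count (D b : ℕ) (hb : 2 ≤ b) (δ : ℝ) (hδ : 0 < δ) (hδ1 : δ ≤ 1) (a : ℝ) (ha : a ≠ 0) (P : Polynomial ℝ)
    (hP : P.natDegree ≤ D) (r : ℝ) (hr0 : 0 < r) (hr1 : r < 1) (Q : Set ℕ)
    (hQ : ∀ n ∈ Q, 1 ≤ n ∧ Simple b δ a P (cc D (r * δ)) n) :
    ∃ C : ℝ, 0 ≤ C ∧ ∀ X : ℕ, 1 ≤ X → (((Ioc 0 X).filter (fun n => n ∈ Q)).card : ℝ) ≤
        C * (X : ℝ) ^ (1 - eta D (r * δ)) := by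
  have hrδ : 0 < r * δ := by positivity
  have hrδ1 : r * δ ≤ 1 := by nlinarith
  obtain ⟨C, hC, h⟩ := DigitsOfPowersOfE.result D b hb (r * δ) hrδ hrδ1
  have ha0 : 0 < |a| := abs_pos.2 ha
  set X₀ : ℕ := ⌈abs (Real.log (abs a))⌉₊ with hX₀
  refine sum_up Q (C := C) hr0 hr1 (by linarith [eta_lt (D := D) hrδ hrδ1]) X₀ (fun X hX hX1 => ?_)
  have hXr : (1 : ℝ) ≤ X := by exact_mod_cast hX1
  have hlog : abs (Real.log (abs a)) ≤ X := (Nat.le_ceil _).trans (by exact_mod_cast hX)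
  obtain ⟨h1, h2⟩ := abs_le.1 hlog
  have h3 := h a P X hX1 (by
    rw [← Real.exp_log ha0]
    exact Real.exp_le_exp.2 h1) (by
    rw [← Real.exp_log ha0]
    exact Real.exp_le_exp.2 h2) hP
  refine le_trans (Nat.cast_le.2 ?_) h3
  rw [← Set.ncard_coe_finset]
  apply Set.ncard_le_ncard _ ((Set.finite_Iic X).subset (fun N hN => hN.2.1))
  intro n hn
  rw [mem_coe, mem_filter, mem_Ioc] at hn
  obtain ⟨⟨-, h4⟩, hnQ, h10⟩ := hn
  obtain ⟨h5, u, L, h6, h7, h8, h9⟩ := hQ n hnQ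
  have hnX : (n : ℝ) ≤ X := by exact_mod_cast h4
  refine ⟨h5, h4, u, L, h6, ?_, ?_, h9⟩
  · calc r * δ * X = δ * (r * X) := by ring
      _ ≤ δ * n := mul_le_mul_of_nonneg_left h10.le hδ.le
      _ ≤ L := h7
  · calc (u : ℝ) + L ≤ n / δ := h8
      _ ≤ X / δ := div_le_div_of_nonneg_right hnX hδ.le
      _ ≤ X / (r * δ) := by
          apply div_le_div_of_nonneg_left (by positivity) hrδ
          nlinarith

/-- the dimension of an upper limit of sets -/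
lemma limsup_dim {d : ℕ → ℝ} {d₁ : ℝ} (hd : Antitone d) (hlim : Tendsto d atTop (𝓝 d₁)) (E : ℕ → Set ℝ)
    (hE : ∀ j, dimH (E j) ≤ ENNReal.ofReal (d j)) :
    dimH (⋂ J : ℕ, ⋃ j : {j : ℕ // J ≤ j}, E j) ≤ ENNReal.ofReal d₁ := by
  refine ge_of_tendsto' (ENNReal.tendsto_ofReal hlim) fun J => (dimH_mono (Set.iInter_subset _ J)).trans ?_
  rw [dimH_iUnion]
  exact iSup_le fun j => (hE j).trans (ENNReal.ofReal_le_ofReal (hd j.2))

/-- all `c` below the limit at once -/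
lemma all_c (D : ℕ) (δ : ℝ) (hδ : 0 < δ) {c₀ θ : ℝ} (hθ1 : θ < 1) (W : ℝ → ℝ → Prop)
    (hmono : ∀ c c' α : ℝ, c ≤ c' → W c' α → W c α)
    (hW : ∀ r : ℝ, 0 < r → r < 1 → ∃ E : Set ℝ, dimH E ≤ ENNReal.ofReal ((c₀ - eta D (r * δ)) / (1 - θ)) ∧
      ∀ α : ℝ, 0 < α → α ∉ E → W (cc D (r * δ)) α) :
    ∃ E : Set ℝ, dimH E ≤ ENNReal.ofReal ((c₀ - eta D δ) / (1 - θ)) ∧ ∀ α : ℝ, 0 < α → α ∉ E →
      ∀ c : ℝ, c < cc D δ → W c α := by
  have h1θ : 0 < 1 - θ := by linarith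
  set r : ℕ → ℝ := fun j => 1 - 1 / ((j : ℝ) + 2) with hr
  have hr0 : ∀ j, 0 < r j ∧ r j < 1 := by
    intro j
    have h1 : (0 : ℝ) ≤ j := Nat.cast_nonneg j
    have h2 : 1 / ((j : ℝ) + 2) < 1 := by
      rw [div_lt_one (by positivity)]
      linarith
    have h3 : 0 < 1 / ((j : ℝ) + 2) := by positivity
    constructor
    · show 0 < 1 - 1 / ((j : ℝ) + 2)
      linarith
    · show 1 - 1 / ((j : ℝ) + 2) < 1
      linarith
  have hrm : Monotone r := by
    intro i j hij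
    have h1 : (i : ℝ) ≤ j := by exact_mod_cast hij
    have h2 : 1 / ((j : ℝ) + 2) ≤ 1 / ((i : ℝ) + 2) := one_div_le_one_div_of_le (by positivity) (by linarith)
    show 1 - 1 / ((i : ℝ) + 2) ≤ 1 - 1 / ((j : ℝ) + 2)
    linarith
  have hrl : Tendsto r atTop (𝓝 1) := by
    have h1 : Tendsto (fun j : ℕ => 1 / ((j : ℝ) + 2)) atTop (𝓝 0) := by
      apply Tendsto.div_atTop tendsto_const_nhds
      exact tendsto_atTop_add_const_right _ _ tendsto_natCast_atTop_atTop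
    have h2 := tendsto_const_nhds (x := (1 : ℝ)) |>.sub h1
    rwa [sub_zero] at h2
  have hall : ∀ j : ℕ, _ := fun j => hW (r j) (hr0 j).1 (hr0 j).2
  choose E hE1 hE2 using hall
  have hrδ : Tendsto (fun j => r j * δ) atTop (𝓝 δ) := by
    have := hrl.mul_const δ
    rwa [one_mul] at this
  refine ⟨⋂ J : ℕ, ⋃ j : {j : ℕ // J ≤ j}, E j, limsup_dim (d := fun j => (c₀ - eta D (r j * δ)) / (1 - θ)) ?_ ?_ E hE1,
    fun α hα hαE c hc => ?_⟩
  · intro i j hij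
    show (c₀ - eta D (r j * δ)) / (1 - θ) ≤ (c₀ - eta D (r i * δ)) / (1 - θ)
    rw [div_le_div_iff_of_pos_right h1θ]
    have h1 : eta D (r i * δ) ≤ eta D (r j * δ) := by
      unfold eta
      apply div_le_div_of_nonneg_right _ (by positivity)
      exact pow_le_pow_left₀ (mul_pos (hr0 i).1 hδ).le (mul_le_mul_of_nonneg_right (hrm hij) hδ.le) 4
    linarith
  · have h1 : Tendsto (fun j => eta D (r j * δ)) atTop (𝓝 (eta D δ)) := by
      unfold eta
      exact (hrδ.pow 4).div_const _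
    exact (h1.const_sub c₀).div_const (1 - θ)
  · rw [Set.mem_iInter] at hαE
    push Not at hαE
    obtain ⟨J, hJ⟩ := hαE
    rw [Set.mem_iUnion] at hJ
    push Not at hJ
    have h1 : Tendsto (fun j => cc D (r j * δ)) atTop (𝓝 (cc D δ)) := by
      unfold cc
      exact (hrδ.pow 2).div_const _
    obtain ⟨M, hM⟩ := (h1.eventually (lt_mem_nhds hc)).exists_forall_of_atTop
    have h2 := hM (max J M) (le_max_right _ _)
    exact hmono c (cc D (r (max J M) * δ)) α h2.le (hE2 (max J M) α hα (hJ ⟨max J M, le_max_left _ _⟩))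

/-- `0` is outside the windows for large `k` -/
lemma zero_out {v : ℕ → ℝ} {τ θ α : ℝ} (hv : ∀ k, 1 ≤ v k) (hτ : 0 ≤ τ) (hE : ExpLe v τ) (hθ1 : θ < 1) (hα : 0 < α) :
    ∃ k₀ : ℕ, ∀ k : ℕ, k₀ ≤ k → ∀ n : ℕ, |(n : ℝ) - α * v k| ≤ (v k) ^ θ → 1 ≤ n := by
  have hvp : ∀ n, 0 < v n := fun n => lt_of_lt_of_le one_pos (hv n)
  have htv : Tendsto v atTop atTop := Pool.Agent.Y854.GM.tendsto_of_expLe hvp hτ hE
  have h1θ : 0 < 1 - θ := by linarith
  have hvθ : Tendsto (fun n => (v n) ^ (1 - θ)) atTop atTop := (tendsto_rpow_atTop h1θ).comp htv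
  obtain ⟨k₀, hk₀⟩ := (hvθ.eventually (eventually_gt_atTop (1 / α))).exists_forall_of_atTop
  refine ⟨k₀, fun k hk n hn => ?_⟩
  by_contra hcon
  have hn0 : n = 0 := by omega
  rw [hn0, Nat.cast_zero, zero_sub, abs_neg, abs_of_pos (mul_pos hα (hvp k))] at hn
  have h7 := hk₀ k hk
  have h8 : v k = (v k) ^ (1 - θ) * (v k) ^ θ := by
    rw [← Real.rpow_add (hvp k)]
    rw [show 1 - θ + θ = 1 by ring, Real.rpow_one]
  have h9 : 0 < (v k) ^ θ := Real.rpow_pos_of_pos (hvp k) θ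
  have h10 : (v k) ^ θ < α * v k := by
    calc (v k) ^ θ = α * (1 / α) * (v k) ^ θ := by field_simp
      _ < α * (v k) ^ (1 - θ) * (v k) ^ θ :=
          mul_lt_mul_of_pos_right (mul_lt_mul_of_pos_left h7 hα) h9
      _ = α * ((v k) ^ (1 - θ) * (v k) ^ θ) := by ring
      _ = α * v k := by rw [← h8]
  linarith

/-- **Theorem.** Let `b ≥ 2`, `0 < δ ≤ 1`, `a ≠ 0` real, `P` a real polynomial of degree at most `D`, `v ≥ 1` a sequence of
exponent of convergence at most `τ ≥ 0` and `θ < 1`. (1) There is a set `E` of Hausdorff dimension at most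
`(1 - δ ^ 4 / (13107200 · 2 ^ D) + τ) / (1 - θ)` such that for each `α > 0` outside `E`, each
`c < δ ^ 2 / (50000 · 2 ^ D)` and all but finitely many `k`, for ALL `n` with `|n - α v_k| ≤ v_k ^ θ` every block of
`L ≥ δ n` consecutive base `b` digits of `a e^n + P(n)`, at the places `u + 1, …, u + L` with `|a| e^n b^u ≥ 1` and
`u + L ≤ n / δ`, has linear complexity larger than `c L`. (2) For `γ ≤ 1 / 2` there is `E` of dimension at most
`(1 - δ ^ 4 / (13107200 · 2 ^ D) - γ + τ) / (1 - θ)` such that for each `α > 0` outside `E`, each such `c` and all but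
finitely many `k` this fails for at most `v_k ^ γ` of the `n` with `|n - α v_k| ≤ v_k ^ θ`. The sequences
`v_k = (k + 1) ^ κ` and `v_k = κ ^ k` have exponent of convergence at most `1 / κ` and `0`. -/
theorem result :
    (∀ (D b : ℕ) (_ : 2 ≤ b) (δ : ℝ) (_ : 0 < δ) (_ : δ ≤ 1) (a : ℝ) (_ : a ≠ 0) (P : Polynomial ℝ)
      (_ : P.natDegree ≤ D) (v : ℕ → ℝ) (τ θ : ℝ), (∀ n, 1 ≤ v n) → 0 ≤ τ → ExpLe v τ → θ < 1 →
        (∃ E : Set ℝ, dimH E ≤ ENNReal.ofReal ((1 - δ ^ 4 / (13107200 * 2 ^ D) + τ) / (1 - θ)) ∧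
          ∀ α : ℝ, 0 < α → α ∉ E → ∀ c : ℝ, c < δ ^ 2 / (50000 * 2 ^ D) →
            ∃ k₀ : ℕ, ∀ k : ℕ, k₀ ≤ k → ∀ n : ℕ, |(n : ℝ) - α * v k| ≤ (v k) ^ θ → ∀ (u : ℤ) (L : ℕ),
              1 ≤ |a| * Real.exp n * (b : ℝ) ^ u → δ * n ≤ L → (u : ℝ) + L ≤ n / δ →
                c * L < (complexity b (a * Real.exp n + P.eval (n : ℝ)) u L : ℝ)) ∧
        (∀ γ : ℝ, γ ≤ 1 / 2 →
          ∃ E : Set ℝ, dimH E ≤ ENNReal.ofReal ((1 - δ ^ 4 / (13107200 * 2 ^ D) - γ + τ) / (1 - θ)) ∧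
          ∀ α : ℝ, 0 < α → α ∉ E → ∀ c : ℝ, c < δ ^ 2 / (50000 * 2 ^ D) →
            ∃ k₀ : ℕ, ∀ k : ℕ, k₀ ≤ k →
              ({n : ℕ | |(n : ℝ) - α * v k| ≤ (v k) ^ θ ∧ Simple b δ a P c n}.ncard : ℝ) ≤ (v k) ^ γ)) ∧
    (∀ κ : ℝ, 0 < κ → ExpLe (fun n : ℕ => ((n : ℝ) + 1) ^ κ) (1 / κ)) ∧
    (∀ κ : ℝ, 1 < κ → ExpLe (fun n : ℕ => κ ^ n) 0) := by
  classical
  refine ⟨fun D b hb δ hδ hδ1 a ha P hP v τ θ hv hτ hE hθ1 => ⟨?_, fun γ hγ => ?_⟩,
    fun κ hκ => Pool.Agent.Y854.GM.expLe_pow κ hκ, fun κ hκ => Pool.Agent.Y854.GM.expLe_geom κ hκ⟩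
  · obtain ⟨E, h1, h2⟩ := all_c D δ hδ (c₀ := 1 + τ) hθ1
      (fun c α => ∃ k₀ : ℕ, ∀ k : ℕ, k₀ ≤ k → ∀ n : ℕ, |(n : ℝ) - α * v k| ≤ (v k) ^ θ → ¬ Simple b δ a P c n)
      (fun c c' α hc h => by
        obtain ⟨k₀, hk⟩ := h
        exact ⟨k₀, fun k hk1 n hn hs => hk k hk1 n hn (simple_mono hc hs)⟩)
      (fun r hr0 hr1 => by
        obtain ⟨C, hC, h⟩ := count D b hb δ hδ hδ1 a ha P hP r hr0 hr1
          {n : ℕ | 1 ≤ n ∧ Simple b δ a P (cc D (r * δ)) n} (fun n hn => hn)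
        have hη : eta D (r * δ) ≤ 1 / 2 := eta_lt (by positivity) (by nlinarith)
        obtain ⟨E, h3, h4⟩ := Pool.Agent.Y854.GM.win_nat {n : ℕ | 1 ≤ n ∧ Simple b δ a P (cc D (r * δ)) n} hv hτ hE
          (s := 1 - eta D (r * δ)) (by linarith) hθ1 (fun ε hε => by
            refine ⟨C, fun X hX => le_trans (le_of_eq ?_) ((h X hX).trans ?_)⟩
            · congr
            · have hX1 : (1 : ℝ) ≤ X := by exact_mod_cast hX
              apply mul_le_mul_of_nonneg_left _ hC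
              apply Real.rpow_le_rpow_of_exponent_le hX1
              linarith)
        refine ⟨E, h3.trans (le_of_eq ?_), fun α hα hαE => ?_⟩
        · congr 2
          ring
        · obtain ⟨k₀, hk⟩ := h4 α hα hαE
          exact ⟨k₀, fun k hk1 n hn hs => (hk k hk1 n hn).2 ⟨(hk k hk1 n hn).1, hs⟩⟩)
    refine ⟨E, h1.trans (le_of_eq ?_), fun α hα hαE c hc => ?_⟩
    · unfold eta
      congr 2
      ring
    · obtain ⟨k₀, hk⟩ := h2 α hα hαE c hc
      refine ⟨k₀, fun k hk1 n hn u L h3 h4 h5 => ?_⟩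
      by_contra hcon
      push Not at hcon
      exact hk k hk1 n hn ⟨u, L, h3, h4, h5, hcon⟩
  · have hfin : ∀ (α c : ℝ) (k : ℕ), {n : ℕ | |(n : ℝ) - α * v k| ≤ (v k) ^ θ ∧ Simple b δ a P c n}.Finite := by
      intro α c k
      refine (Set.finite_Iic ⌊α * v k + (v k) ^ θ⌋₊).subset ?_
      rintro m ⟨h, -⟩
      apply Nat.le_floor
      linarith [(abs_le.1 h).2]
    obtain ⟨E, h1, h2⟩ := all_c D δ hδ (c₀ := 1 - γ + τ) hθ1
      (fun c α => 0 < α → ∃ k₀ : ℕ, ∀ k : ℕ, k₀ ≤ k →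
        ({n : ℕ | |(n : ℝ) - α * v k| ≤ (v k) ^ θ ∧ Simple b δ a P c n}.ncard : ℝ) ≤ (v k) ^ γ)
      (fun c c' α hc h hα => by
        obtain ⟨k₀, hk⟩ := h hα
        refine ⟨k₀, fun k hk1 => le_trans (Nat.cast_le.2 (Set.ncard_le_ncard ?_ (hfin α c' k))) (hk k hk1)⟩
        rintro n ⟨h3, h4⟩
        exact ⟨h3, simple_mono hc h4⟩)
      (fun r hr0 hr1 => by
        obtain ⟨C, hC, h⟩ := count D b hb δ hδ hδ1 a ha P hP r hr0 hr1
          {n : ℕ | 1 ≤ n ∧ Simple b δ a P (cc D (r * δ)) n} (fun n hn => hn)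
        have hη : eta D (r * δ) ≤ 1 / 2 := eta_lt (by positivity) (by nlinarith)
        obtain ⟨E, h3, h4⟩ := Pool.Agent.Y854.GM.few_nat {n : ℕ | 1 ≤ n ∧ Simple b δ a P (cc D (r * δ)) n}
          (fun h0 => by
            have := h0.1
            omega) γ (s := 1 - eta D (r * δ)) (by linarith) hv hτ hE (by linarith) hθ1 (fun ε hε => by
            refine ⟨C, fun X hX => le_trans (le_of_eq ?_) ((h X hX).trans ?_)⟩
            · congr
            · have hX1 : (1 : ℝ) ≤ X := by exact_mod_cast hX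
              apply mul_le_mul_of_nonneg_left _ hC
              apply Real.rpow_le_rpow_of_exponent_le hX1
              linarith)
        refine ⟨E, h3.trans (le_of_eq ?_), fun α hα hαE _ => ?_⟩
        · congr 2
          ring
        · obtain ⟨k₀, hk⟩ := h4 α hα hαE
          obtain ⟨k₁, hk'⟩ := zero_out hv hτ hE hθ1 hα
          refine ⟨max k₀ k₁, fun k hk1 => le_trans (Nat.cast_le.2 (Set.ncard_le_ncard ?_ ?_))
            (hk k ((le_max_left _ _).trans hk1))⟩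
          · rintro n ⟨h5, h6⟩
            exact ⟨⟨hk' k ((le_max_right _ _).trans hk1) n h5, h6⟩, h5⟩
          · refine (Set.finite_Iic ⌊α * v k + (v k) ^ θ⌋₊).subset ?_
            rintro m ⟨-, h⟩
            apply Nat.le_floor
            linarith [(abs_le.1 h).2])
    refine ⟨E, h1.trans (le_of_eq ?_), fun α hα hαE c hc => h2 α hα hαE c hc hα⟩
    unfold eta
    congr 2
    ring

end Pool.Agent.Results.MP_9056e9_nt.DigitWindows
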