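import Mathlib
import Pool.Agent.Y928.EN.Main

/-!
# The digits of `e^n` for almost all `n`

For all but `C N ^ (1 - κ)` of the integers `n ≤ N` every block of at least `δ N` consecutive digits
of `e^n` in base `b`, between the leading digit and the `N / δ`-th digit after the point, has linear
complexity at least `c` times its length, `c = c(δ)`. The same for `a e^n + P(n)`, with an arbitrary
real number `a`, `e^(-N) ≤ |a| ≤ e^N`, and an arbitrary real polynomial `P` of bounded degree.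
-/

set_option autoImplicit false

namespace Pool.Agent.Results.MP_9056e9_nt.DigitsOfPowersOfE

open Finset

/-- the digit of `x` in base `b` at the place `i` after the point (before the point for `i ≤ 0`) -/
noncomputable def digit (b : ℕ) (x : ℝ) (i : ℤ) : ℤ := ⌊x * (b : ℝ) ^ i⌋ % (b : ℤ)

/-- the linear complexity of the block of the digits of `x` at the places `u + 1, …, u + L`: the
least order `m` of a linear recurrence `s_(i+m) = c_0 s_i + … + c_(m-1) s_(i+m-1)` over `ℚ` which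
they satisfy -/
noncomputable def complexity (b : ℕ) (x : ℝ) (u : ℤ) (L : ℕ) : ℕ :=
  sInf {m | ∃ c : ℕ → ℚ, ∀ i : ℕ, 1 ≤ i → i + m ≤ L →
    (digit b x (u + (i + m : ℕ)) : ℚ) = ∑ j ∈ range m, c j * (digit b x (u + (i + j : ℕ)) : ℚ)}

/-- **The digits of `a e^n + P(n)` for almost all `n`.** -/
theorem result (D b : ℕ) (hb : 2 ≤ b) (δ : ℝ) (hδ : 0 < δ) (hδ1 : δ ≤ 1) :
    ∃ C : ℝ, 0 < C ∧ ∀ (a : ℝ) (P : Polynomial ℝ) (N : ℕ), 1 ≤ N → Real.exp (-(N : ℝ)) ≤ |a| →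
      |a| ≤ Real.exp N → P.natDegree ≤ D →
      ({n : ℕ | 1 ≤ n ∧ n ≤ N ∧ ∃ (u : ℤ) (L : ℕ),
        1 ≤ |a| * Real.exp n * (b : ℝ) ^ u ∧ δ * N ≤ L ∧ (u : ℝ) + L ≤ N / δ ∧
        (complexity b (a * Real.exp n + P.eval (n : ℝ)) u L : ℝ) ≤
          δ ^ 2 / (50000 * 2 ^ D) * L}.ncard : ℝ) ≤
        C * (N : ℝ) ^ (1 - δ ^ 4 / (13107200 * 2 ^ D)) := by
  classical
  obtain ⟨C, hC, h⟩ := Pool.Agent.Y928.EN.main D b hb δ hδ hδ1
  refine ⟨C, hC, fun a P N hN ha1 ha2 hP => ?_⟩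
  have h1 := h a P N hN ha1 ha2 hP
  have e1 : (δ ^ 2 / 32) ^ 2 / (12800 * 2 ^ D) = δ ^ 4 / (13107200 * 2 ^ D) := by
    field_simp
    ring
  rw [e1] at h1
  refine le_trans ?_ h1
  have hg : δ ^ 2 / (50000 * 2 ^ D) ≤ 1 / (16 * (1 + 3072 * 2 ^ D / δ ^ 2)) := by
    have h2 : (1 : ℝ) ≤ 2 ^ D := one_le_pow₀ (by norm_num)
    have h3 : δ ^ 2 ≤ 1 := by nlinarith
    have h4 : (1 : ℝ) / (16 * (1 + 3072 * 2 ^ D / δ ^ 2)) = δ ^ 2 / (16 * (δ ^ 2 + 3072 * 2 ^ D)) := by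
      field_simp
    rw [h4]
    apply div_le_div_of_nonneg_left (by positivity) (by positivity)
    nlinarith
  have hsub : {n : ℕ | 1 ≤ n ∧ n ≤ N ∧ ∃ (u : ℤ) (L : ℕ),
        1 ≤ |a| * Real.exp n * (b : ℝ) ^ u ∧ δ * N ≤ L ∧ (u : ℝ) + L ≤ N / δ ∧
        (complexity b (a * Real.exp n + P.eval (n : ℝ)) u L : ℝ) ≤
          δ ^ 2 / (50000 * 2 ^ D) * L} ⊆
      (((Icc 1 N).filter (fun n : ℕ => Pool.Agent.Y928.EN.Low b N δ
        (1 / (16 * (1 + 3072 * 2 ^ D / δ ^ 2))) (|a| * Real.exp n)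
        (a * Real.exp n + P.eval (n : ℝ))) : Finset ℕ) : Set ℕ) := by
    rintro n ⟨hn1, hn2, u, L, hu, hL, huL, hcx⟩
    rw [mem_coe, mem_filter, mem_Icc]
    have hmem : complexity b (a * Real.exp n + P.eval (n : ℝ)) u L ∈ {m | ∃ c : ℕ → ℚ, ∀ i : ℕ,
        1 ≤ i → i + m ≤ L → (digit b (a * Real.exp n + P.eval (n : ℝ)) (u + (i + m : ℕ)) : ℚ) =
          ∑ j ∈ range m, c j *
            (digit b (a * Real.exp n + P.eval (n : ℝ)) (u + (i + j : ℕ)) : ℚ)} := by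
      apply Nat.sInf_mem
      exact ⟨L, fun _ => 0, fun i h1 h2 => by omega⟩
    obtain ⟨c, hc⟩ := hmem
    exact ⟨⟨hn1, hn2⟩, u, L, _, c, hu, hL, huL,
      hcx.trans (mul_le_mul_of_nonneg_right hg (Nat.cast_nonneg _)), hc⟩
  have h3 := Set.ncard_le_ncard hsub (Finset.finite_toSet _)
  rw [Set.ncard_coe_finset] at h3
  exact_mod_cast h3

end Pool.Agent.Results.MP_9056e9_nt.DigitsOfPowersOfE
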