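import Pool.Agent.Y30.PP.Equi2
import Pool.Agent.TH456.TM.AlgDep
import Pool.Agent.TH456.TM.E

/-!
# Dilates of the powers of `π`: equidistribution for most integer multipliers

Let `x` be `π`, or `e`, or any real transcendental number with `|x| > 1` which is algebraic over
`ℚ(π)`, over `ℚ(e)` or over `ℚ(log q)` with `q` rational (`π²`, `√π`, `π + √2`, `-π`, `log 3`, ...).
We show: for all but `ε H` of any `H` consecutive integers `h` the points
`(h P_1(x^n), …, h P_d(x^n))`, `n ∈ S`, have discrepancy at most `ε` modulo one, for every set `S` of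
at least `εK` exponents in an interval `(M, M + K]` with `K ≥ K₀`, as soon as `H ≥ (T e^(M+K))^A`.
Here `P_1, …, P_d` are real polynomials of degree `≤ k` with coefficients `≤ T`, such that in every
integral combination `∑ r_i P_i`, `r ≠ 0`, `|r_i| ≤ R`, some coefficient of positive degree is
`≥ 1/T`; the constants `A`, `K₀`, `R` depend only on `x`, `k`, `d` and `ε`.

* For `P(X) = X`, `S = {1, …, N}`: the numbers `hπ, hπ², …, hπ^N` are equidistributed, up to `ε`, for
  most integers `h ≤ e^(AN)`.
* For `P(X) = βX`, `|β|` between `e^(-N)` and `e^N`, the same is true for `hβπ, …, hβπ^N`, with the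
  same constants.
* If no non-trivial integral combination of the fixed polynomials `P_1, …, P_d` is constant one can
  take a fixed `T`. With `P_i(X) = X^i` one gets the joint distribution of `hπ^n, …, hπ^(dn)`, and with
  `P_i(X) = x^i X` the one of `h x^n, h x^(n+1), …, h x^(n+d-1)` (`x` being transcendental): for most
  `h` the sequence is completely equidistributed up to `ε` in the block `(M, M+K]`, where `K ≥ K₀`
  is fixed and `M` arbitrarily large.

The main step (`Pool.Agent.Y30.PP.mean`) is that the mean over `0 ≤ h < H` of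
`|∑_{M < n ≤ M+K} z_n e(h P(x^n))|²` is at most `ε K²` for all `|z_n| ≤ 1` and `H ≥ (T e^(M+K))^A`.
It rests on an elimination which shows that among `k + 1` indices `n` in a window of bounded length
one of the numbers `P(x^(n+d)) - P(x^n)` is not too close to an integer; one needs the transcendence
measure of `x` for polynomials of *bounded* degree only.

The starting files `RandomDilates` and `RealFrequencies` are about the powers of `e` (where
`H ≥ e^(δN)` suffices, for `d = 1`, `P(X) = βX`). For the powers of `π` a direct application of the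
known transcendence measures needs `H ≥ exp(C N² (log N)²)`, and does not work in short blocks.
-/

set_option autoImplicit false

namespace Pool.Agent.Results.MP_9056e9_nt.DilatesOfPowersOfPi

open Polynomial Finset

open Classical in
/-- The points `y n ∈ ℝ^d`, `n ∈ s`, have discrepancy at most `ε` modulo one: for every box
`∏ [a i, b i)` in `[0,1]^d` the number of `n ∈ s` with all `{y n i} ∈ [a i, b i)` differs from
`∏ (b i - a i)` times the number of elements of `s` by at most `ε` times this number. -/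
def LowDiscrepancy {d : ℕ} (ε : ℝ) (s : Finset ℕ) (y : ℕ → Fin d → ℝ) : Prop :=
  ∀ a b : Fin d → ℝ, (∀ i, 0 ≤ a i ∧ a i ≤ b i ∧ b i ≤ 1) →
    |((s.filter fun n => ∀ i, a i ≤ Int.fract (y n i) ∧ Int.fract (y n i) < b i).card : ℝ) -
      (∏ i, (b i - a i)) * s.card| ≤ ε * s.card

open Classical in
/-- Let `ω` be `π`, `e` or the logarithm of a positive rational number different from `1`, and let
`x` be a real transcendental number, algebraic over `ℤ[ω]`, with `|x| > 1` (for instance `x = π`).
For all `k`, `d` and `ε > 0` there are `A`, `K₀` and `R` with the following property. Let `K ≥ K₀`,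
let `S ⊆ (M, M + K]` be a set of at least `εK` exponents, let `T ≥ 1`, and let `P_1, …, P_d` be real
polynomials of degree at most `k` whose coefficients of positive degree are at most `T` in absolute
value, such that for all integers `r_1, …, r_d`, not all zero, with `|r_a| ≤ R`, some coefficient of
positive degree of `∑ r_a P_a` is at least `1/T` in absolute value. Then for all
`H ≥ (T e^(M+K))^A` and real `h₀`, for all but at most `ε H` of the integers `0 ≤ h < H` the points
`((h₀ + h) P_1(x^n), …, (h₀ + h) P_d(x^n))`, `n ∈ S`, have discrepancy at most `ε` modulo one. -/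
theorem result (ω x : ℝ)
    (hω : ω = Real.pi ∨ ω = Real.exp 1 ∨ ∃ q : ℚ, 0 < q ∧ q ≠ 1 ∧ ω = Real.log q)
    (hx : IsAlgebraic (Algebra.adjoin ℤ ({(ω : ℂ)} : Set ℂ)) (x : ℂ))
    (hx' : Transcendental ℤ x) (hx1 : 1 < |x|) (k d : ℕ) (ε : ℝ) (hε : 0 < ε) :
    ∃ (A : ℝ) (K₀ R : ℕ), ∀ K, K₀ ≤ K → ∀ (M : ℕ) (S : Finset ℕ), S ⊆ Ioc M (M + K) →
      ε * K ≤ S.card → ∀ (T : ℝ) (P : Fin d → ℝ[X]), 1 ≤ T → (∀ a, (P a).natDegree ≤ k) →
      (∀ a i, 1 ≤ i → |(P a).coeff i| ≤ T) →
      (∀ r : Fin d → ℤ, r ≠ 0 → (∀ a, |r a| ≤ (R : ℤ)) →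
        ∃ i, 1 ≤ i ∧ 1 / T ≤ |∑ a, (r a : ℝ) * (P a).coeff i|) →
      ∀ H : ℕ, (T * Real.exp ((M + K : ℕ) : ℝ)) ^ A ≤ H → ∀ h₀ : ℝ,
      (((range H).filter fun h : ℕ => ¬ LowDiscrepancy ε S
        (fun n a => (h₀ + h) * (P a).eval (x ^ n))).card : ℝ) ≤ ε * H := by
  have hxC : Transcendental ℤ (x : ℂ) := by
    intro h
    exact hx' ((isAlgebraic_algebraMap_iff (R := ℤ) (A := ℂ) (S := ℝ)
      (algebraMap ℝ ℂ).injective).1 (by simpa using h))
  have hω' : Pool.Agent.TH456.TM.MeasT (ω : ℂ) := by
    rcases hω with rfl | rfl | ⟨q, hq0, hq1, rfl⟩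
    · exact Pool.Agent.TH456.TM.measT_pi
    · exact Pool.Agent.TH456.TM.measT_e
    · exact Pool.Agent.TH456.TM.measT_real_log q hq0 hq1
  have hM : Pool.Agent.TH456.TM.MeasT (x : ℂ) :=
    Pool.Agent.TH456.TM.measT_of_isAlgebraic hω' _ hx hxC
  obtain ⟨A, K₀, R, -, h⟩ := Pool.Agent.Y30.PP.equi2 x hx1 hM k d ε hε
  refine ⟨A, K₀, R, fun K hK M S hSM hSK T P hT1 hPk hPT hPR H hH h₀ => ?_⟩
  refine le_trans ?_ (h K hK M S hSM hSK T P hT1 hPk hPT hPR H hH h₀)
  refine Nat.cast_le.2 (card_le_card fun j hj => ?_)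
  rw [mem_filter] at hj ⊢
  refine ⟨hj.1, ?_⟩
  have h1 := hj.2
  unfold LowDiscrepancy at h1
  push Not at h1
  obtain ⟨a, b, hab, hlt⟩ := h1
  refine ⟨a, b, hab, ?_⟩
  refine lt_of_lt_of_eq hlt ?_
  congr 3

end Pool.Agent.Results.MP_9056e9_nt.DilatesOfPowersOfPi
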